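import Mathlib
import Pool.Agent.P.MP_07218e_co.Defs
import Pool.Agent.K.MP_07218e_co.C1

theorem Pool.Agent.Results.MP_07218e_co.LowerBound.result :
    4 / 5 ≤ Pool.Agent.P.MP_07218e_co.cStar :=
  Pool.Agent.P.MP_07218e_co.lower45
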