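import Mathlib
import Pool.Agent.P.MP_07218e_co.Defs
import Pool.Agent.K.MP_07218e_co.C2

theorem Pool.Agent.Results.MP_07218e_co.UpperBound.result :
    Pool.Agent.P.MP_07218e_co.cStar ≤ 635 / 771 :=
  Pool.Agent.P.MP_07218e_co.upper45
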